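import Pool.Agent.Helper52.PG.Goals
import Pool.Agent.Helper54.Arb.Coeff

/-!
PROJECT C2, target (a), packet PH-COEFM.
-/

namespace Pool.Agent.Helper90.PG

open Pool.Agent.Helper99.PG Pool.Agent.Helper52.PG
open LaurentPolynomial

theorem toLaurent_coeff (p : Polynomial ℝ) (i : ℤ) :
    (Polynomial.toLaurent p).coeff i = if 0 ≤ i then p.coeff i.toNat else 0 := by
  induction p using Polynomial.induction_on' with
  | add p q hp hq =>
    rw [map_add, AddMonoidAlgebra.coeff_add, Finsupp.add_apply, hp, hq]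
    split_ifs
    · rw [Polynomial.coeff_add]
    · ring
  | monomial n a =>
    rw [← Polynomial.C_mul_X_pow_eq_monomial, Polynomial.toLaurent_C_mul_X_pow,
      ← LaurentPolynomial.single_eq_C_mul_T, AddMonoidAlgebra.coeff_single,
      Finsupp.single_apply, Polynomial.coeff_C_mul_X_pow]
    by_cases h : (n : ℤ) = i
    · subst h; simp
    · rw [if_neg h]
      split_ifs with h1 h2
      · exfalso; apply h; omega
      · rfl
      · rfl

theorem coeff_mul_T (f : ℝ[T;T⁻¹]) (m i : ℤ) : (f * T m).coeff i = f.coeff (i - m) := by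
  have h := AddMonoidAlgebra.coeff_single_mul_apply f (1 : ℝ) m i
  rw [mul_comm]
  have e : (T m : ℝ[T;T⁻¹]) = AddMonoidAlgebra.single m 1 := rfl
  rw [e, h, one_mul]
  congr 1
  ring

theorem ev_add (f g : ℝ[T;T⁻¹]) (x : ℝ) : ev (f + g) x = ev f x + ev g x := by
  unfold ev
  rw [AddMonoidAlgebra.coeff_add, Finsupp.sum_add_index']
  · intro a; simp
  · intro a b c; ring

theorem ev_single (m : ℤ) (a x : ℝ) : ev (C a * T m) x = a * x ^ m := by
  unfold ev
  rw [← LaurentPolynomial.single_eq_C_mul_T, AddMonoidAlgebra.coeff_single, Finsupp.sum_single_index]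
  simp

theorem ev_toLaurent (p : Polynomial ℝ) (x : ℝ) : ev (Polynomial.toLaurent p) x = p.eval x := by
  induction p using Polynomial.induction_on' with
  | add p q hp hq => rw [map_add, ev_add, hp, hq, Polynomial.eval_add]
  | monomial n a =>
    rw [← Polynomial.C_mul_X_pow_eq_monomial, Polynomial.toLaurent_C_mul_X_pow, ev_single,
      Polynomial.eval_mul, Polynomial.eval_C, Polynomial.eval_pow, Polynomial.eval_X, zpow_natCast]

theorem ev_mul_T (f : ℝ[T;T⁻¹]) (m : ℤ) {x : ℝ} (hx : 0 < x) : ev (f * T m) x = x ^ m * ev f x := by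
  induction f using LaurentPolynomial.induction_on' with
  | add p q hp hq => rw [add_mul, ev_add, hp, hq, ev_add, mul_add]
  | C_mul_T n a =>
    rw [mul_assoc, ← T_add, ev_single, ev_single, zpow_add₀ hx.ne']
    ring

theorem coefM : GoalCoefM := by
  intro _ Q f m h i
  set c : ℤ →+* ℝ := Int.castRingHom ℝ with hc
  set q : Polynomial ℝ := (Q.map c).comp (-Polynomial.X) with hq
  have hqe : ∀ x : ℝ, q.eval x = (Polynomial.aeval (-x) Q : ℝ) := by
    intro x
    rw [hq, Polynomial.eval_comp, Polynomial.eval_neg, Polynomial.eval_X, Polynomial.eval_map,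
      Polynomial.aeval_def]
    rfl
  have hqc : ∀ j, q.coeff j = (-1 : ℝ) ^ j * (Q.coeff j : ℝ) := by
    intro j
    have e1 : (-Polynomial.X : Polynomial ℝ) = Polynomial.C (-1) * Polynomial.X := by simp
    rw [hq, e1, Polynomial.comp_C_mul_X_coeff, Polynomial.coeff_map, mul_comm]
    simp [hc]
  rw [← hqc]
  obtain ⟨N, p, hp⟩ := LaurentPolynomial.exists_T_pow f
  have hfc : ∀ j : ℤ, f.coeff j = if 0 ≤ j + N then p.coeff (j + N).toNat else 0 := by
    intro j
    rw [← toLaurent_coeff, hp, coeff_mul_T]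
    congr 1
    ring
  have hpe : ∀ x : ℝ, 0 < x → p.eval x = x ^ (N : ℤ) * ev f x := by
    intro x hx
    rw [← ev_toLaurent, hp, ev_mul_T f _ hx]
  rw [hfc]
  obtain ⟨n, rfl | rfl⟩ := m.eq_nat_or_neg
  · have e : Polynomial.X ^ N * q = Polynomial.X ^ n * p := by
      apply Pool.Agent.Helper54.Arb.eq_of_pos
      intro x hx
      rw [Polynomial.eval_mul, Polynomial.eval_pow, Polynomial.eval_X, Polynomial.eval_mul,
        Polynomial.eval_pow, Polynomial.eval_X, hqe, h x hx, hpe x hx, zpow_natCast, zpow_natCast]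
      ring
    have e2 : q.coeff i = (Polynomial.X ^ n * p).coeff (i + N) := by
      rw [← e, Polynomial.coeff_X_pow_mul]
    rw [e2, Polynomial.coeff_X_pow_mul']
    by_cases hn : n ≤ i + N
    · rw [if_pos hn, if_pos (by omega)]
      congr 1
      omega
    · rw [if_neg hn, if_neg (by omega)]
  · have e : Polynomial.X ^ (N + n) * q = p := by
      apply Pool.Agent.Helper54.Arb.eq_of_pos
      intro x hx
      rw [Polynomial.eval_mul, Polynomial.eval_pow, Polynomial.eval_X, hqe, h x hx, hpe x hx,
        zpow_natCast, zpow_neg, zpow_natCast, pow_add]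
      have : x ^ n ≠ 0 := pow_ne_zero _ hx.ne'
      field_simp
    have e2 : q.coeff i = p.coeff (i + (N + n)) := by
      rw [← e, Polynomial.coeff_X_pow_mul]
    rw [e2, if_pos (by omega)]
    congr 1
    omega

end Pool.Agent.Helper90.PG
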