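import Pool.Agent.Helper99.PG.Goals1

/-!
PROJECT C2, target (a), packet PG-KC.
-/

namespace Pool.Agent.Helper90.PG

open Pool.Agent.Helper99.PG Pool.Agent.Helper52.C2 Pool.Agent.Helper68
open scoped Classical

section

variable {E : Type} [Fintype E] [DecidableEq E] (G : BG E)

/-- the vector of a lattice point -/
def phi (n : E → ℤ) (j : G.C → ℤ) : G.C ⊕ E → ℤ
  | .inl c => j c + 1
  | .inr e => - n e

omit [Fintype E] [DecidableEq E] in
theorem phi_inj (n : E → ℤ) : Function.Injective (phi G n) := by
  intro j j' h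
  funext c
  have h1 := congrFun h (.inl c)
  have h2 : j c + 1 = j' c + 1 := h1
  omega

theorem sum_phi (n : E → ℤ) (j : G.C → ℤ) :
    ∑ a, phi G n j a = ∑ c, j c + Fintype.card G.C - ∑ e, n e := by
  rw [Fintype.sum_sum_type]
  have h1 : ∀ c : G.C, phi G n j (.inl c) = j c + 1 := fun _ => rfl
  have h2 : ∀ e : E, phi G n j (.inr e) = - n e := fun _ => rfl
  simp only [h1, h2]
  rw [Finset.sum_add_distrib, Finset.sum_neg_distrib]
  simp only [Finset.sum_const, Finset.card_univ, nsmul_eq_mul, mul_one]
  ring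

theorem mass_phi (n : E → ℤ) (j : G.C → ℤ) (U : Finset G.C) :
    SK.mass G.g (phi G n j) U = ∑ c ∈ U, j c + U.card -
      ∑ e with (G.lf e ∈ U ∨ G.rt e ∈ U), n e := by
  unfold SK.mass
  rw [Fintype.sum_sum_type]
  have h1 : ∀ c : G.C, (if SK.hit G.g U (.inl c) then phi G n j (.inl c) else 0) =
      if c ∈ U then j c + 1 else 0 := by
    intro c
    by_cases hc : c ∈ U
    · have h2 : SK.hit G.g U (.inl c) := hc
      rw [if_pos h2, if_pos hc]
      rfl
    · have h2 : ¬ SK.hit G.g U (.inl c) := hc
      rw [if_neg h2, if_neg hc]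
  have h2 : ∀ e : E, (if SK.hit G.g U (.inr e) then phi G n j (.inr e) else 0) =
      if (G.lf e ∈ U ∨ G.rt e ∈ U) then - n e else 0 := by
    intro e
    by_cases hc : (G.lf e ∈ U ∨ G.rt e ∈ U)
    · have h2 : SK.hit G.g U (.inr e) := hc
      rw [if_pos h2, if_pos hc]
      rfl
    · have h2 : ¬ SK.hit G.g U (.inr e) := hc
      rw [if_neg h2, if_neg hc]
  rw [Finset.sum_congr rfl (fun c _ => h1 c), Finset.sum_congr rfl (fun e _ => h2 e)]
  rw [← Finset.sum_filter, ← Finset.sum_filter, Finset.sum_neg_distrib, Finset.filter_univ_mem]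
  rw [Finset.sum_add_distrib]
  simp only [Finset.sum_const, nsmul_eq_mul, mul_one]
  ring

theorem mem_iff (n : E → ℤ) (j : G.C → ℤ) : phi G n j ∈ SK.JJ G.g ↔ j ∈ G.J n := by
  unfold SK.JJ BG.J
  simp only [Set.mem_setOf_eq]
  rw [sum_phi]
  constructor
  · rintro ⟨h1, h2⟩
    refine ⟨by omega, fun U hU hU' => ?_⟩
    have h3 := h2 U hU hU'
    rw [mass_phi] at h3
    omega
  · rintro ⟨h1, h2⟩
    refine ⟨by omega, fun U hU hU' => ?_⟩
    have h3 := h2 U hU hU'
    rw [mass_phi]
    omega

theorem c_true (c : G.C) : G.c c = true ↔ G.left c := by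
  unfold BG.c
  exact decide_eq_true_iff

/-- every vector over the fibre comes from a lattice point -/
theorem push_inr {P : Type} [DecidableEq P] (c : G.C → P) (z : G.C ⊕ E → ℤ) (e : E) :
    SK.push (SK.col E c) z (.inr e) = z (.inr e) := by
  unfold SK.push
  rw [Fintype.sum_sum_type]
  have h1 : ∀ v : G.C, (if SK.col E c (.inl v) = .inr e then z (.inl v) else 0) = 0 := by
    intro v
    rw [if_neg]
    unfold SK.col
    simp
  have h2 : ∀ e' : E, (if SK.col E c (.inr e') = .inr e then z (.inr e') else 0) =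
      if e' = e then z (.inr e') else 0 := by
    intro e'
    unfold SK.col
    simp
  rw [Finset.sum_congr rfl (fun c _ => h1 c), Finset.sum_congr rfl (fun e _ => h2 e)]
  simp

theorem push_inl {P : Type} [DecidableEq P] (c : G.C → P) (z : G.C ⊕ E → ℤ) (p : P) :
    SK.push (SK.col E c) z (.inl p) = ∑ v, if c v = p then z (.inl v) else 0 := by
  unfold SK.push
  rw [Fintype.sum_sum_type]
  have h1 : ∀ v : G.C, (if SK.col E c (.inl v) = .inl p then z (.inl v) else 0) =
      if c v = p then z (.inl v) else 0 := by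
    intro v
    unfold SK.col
    simp
  have h2 : ∀ e' : E, (if SK.col E c (.inr e') = .inl p then z (.inr e') else 0) = 0 := by
    intro e'
    rw [if_neg]
    unfold SK.col
    simp
  rw [Finset.sum_congr rfl (fun c _ => h1 c), Finset.sum_congr rfl (fun e _ => h2 e)]
  simp

theorem of_inr (n : E → ℤ) (z : G.C ⊕ E → ℤ) (h : ∀ e, z (.inr e) = - n e) :
    z = phi G n (fun c => z (.inl c) - 1) := by
  funext a
  rcases a with c | e
  · show z (.inl c) = z (.inl c) - 1 + 1
    ring
  · exact h e

theorem J_finite (hF : SK.GoalFin) (n : E → ℤ) : (G.J n).Finite := by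
  let w : Unit ⊕ E → ℤ := fun a => match a with
    | .inl _ => ∑ e, n e + 1
    | .inr e => - n e
  have h := (hF G.C E Unit G.g (fun _ => ())).1 w
  refine Set.Finite.subset (h.preimage ((phi_inj G n).injOn)) ?_
  intro j hj
  show phi G n j ∈ SK.JJ G.g ∧ SK.push (SK.col E (fun _ => ())) (phi G n j) = w
  refine ⟨(mem_iff G n j).2 hj, ?_⟩
  funext a
  rcases a with u | e
  · rw [push_inl]
    show _ = ∑ e, n e + 1
    have h1 : ∀ v : G.C, (if (fun _ : G.C => ()) v = u then phi G n j (.inl v) else 0) = j v + 1 := by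
      intro v
      rw [if_pos rfl]
      rfl
    rw [Finset.sum_congr rfl (fun c _ => h1 c), Finset.sum_add_distrib]
    have h2 := hj.1
    simp only [Finset.sum_const, Finset.card_univ, nsmul_eq_mul, mul_one]
    omega
  · rw [push_inr]
    rfl

/-- the fibre -/
theorem fibre (n : E → ℤ) (i : ℤ) :
    {z : G.C ⊕ E → ℤ | z ∈ SK.JJ G.g ∧ SK.push (SK.col E G.c) z = SK.wt 1 n i} =
      phi G n '' {j | j ∈ G.J n ∧ G.deg j = i} := by
  have hsum : ∀ j : G.C → ℤ, SK.push (SK.col E G.c) (phi G n j) (.inl true) = G.deg j + 1 := by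
    intro j
    rw [push_inl]
    unfold BG.deg
    rw [Finset.sum_filter]
    have h1 : ∀ v : G.C, (if G.c v = true then phi G n j (.inl v) else 0) =
        if G.left v then (j v + 1) else 0 := by
      intro v
      by_cases hv : G.left v
      · rw [if_pos ((c_true G v).2 hv), if_pos hv]
        rfl
      · rw [if_neg (fun h => hv ((c_true G v).1 h)), if_neg hv]
    rw [Finset.sum_congr rfl (fun c _ => h1 c)]
    ring
  have hsum2 : ∀ j : G.C → ℤ, SK.push (SK.col E G.c) (phi G n j) (.inl true) +
      SK.push (SK.col E G.c) (phi G n j) (.inl false) = ∑ c, j c + Fintype.card G.C := by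
    intro j
    rw [push_inl, push_inl, ← Finset.sum_add_distrib]
    have h1 : ∀ v : G.C, ((if G.c v = true then phi G n j (.inl v) else 0) +
        if G.c v = false then phi G n j (.inl v) else 0) = j v + 1 := by
      intro v
      rcases h : G.c v
      · rw [if_neg (by simp), if_pos rfl, zero_add]
        rfl
      · rw [if_pos rfl, if_neg (by simp), add_zero]
        rfl
    rw [Finset.sum_congr rfl (fun c _ => h1 c), Finset.sum_add_distrib]
    simp only [Finset.sum_const, Finset.card_univ, nsmul_eq_mul, mul_one]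
  ext z
  simp only [Set.mem_setOf_eq, Set.mem_image]
  constructor
  · rintro ⟨hz, hp⟩
    have he : ∀ e, z (.inr e) = - n e := by
      intro e
      have h1 := congrFun hp (.inr e)
      rw [push_inr] at h1
      exact h1
    have hz2 := of_inr G n z he
    refine ⟨fun c => z (.inl c) - 1, ⟨?_, ?_⟩, hz2.symm⟩
    · rw [← mem_iff, ← hz2]
      exact hz
    · have h1 := hsum (fun c => z (.inl c) - 1)
      rw [← hz2] at h1
      have h2 := congrFun hp (.inl true)
      rw [h1] at h2
      have h3 : SK.wt 1 n i (.inl true) = i + 1 := rfl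
      omega
  · rintro ⟨j, ⟨hj, hd⟩, rfl⟩
    refine ⟨(mem_iff G n j).2 hj, ?_⟩
    funext a
    rcases a with b | e
    · have h1 := hsum j
      have h2 := hsum2 j
      have h4 := hj.1
      cases b
      · have h3 : SK.wt 1 n i (.inl false) = ∑ e, n e + 1 - (i + 1) := rfl
        rw [h3]
        omega
      · have h3 : SK.wt 1 n i (.inl true) = i + 1 := rfl
        rw [h3]
        omega
    · rw [push_inr]
      rfl

end

theorem kCnt : GoalKCnt := by
  intro hF E _ _ G n i
  have hfin := J_finite G hF n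
  unfold SK.cnt
  rw [fibre G n i, Set.ncard_image_of_injective _ (phi_inj G n)]
  unfold BG.K
  rw [finsum_mem_eq_finite_toFinset_sum _ hfin, AddMonoidAlgebra.coeff_sum, Finsupp.finset_sum_apply]
  have h1 : ∀ j : G.C → ℤ, (LaurentPolynomial.T (G.deg j) : LaurentPolynomial ℝ).coeff i =
      if G.deg j = i then 1 else 0 := by
    intro j
    have h2 : (LaurentPolynomial.T (G.deg j) : LaurentPolynomial ℝ) =
      AddMonoidAlgebra.single (G.deg j) 1 := rfl
    rw [h2, AddMonoidAlgebra.coeff_single_apply]
  rw [Finset.sum_congr rfl (fun j _ => h1 j), ← Finset.sum_filter]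
  simp only [Finset.sum_const, nsmul_eq_mul, mul_one]
  rw [← Set.ncard_coe_finset]
  congr 2
  ext j
  simp

end Pool.Agent.Helper90.PG
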